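import Pool.Agent.W743.BT.Defs
import Pool.Agent.H153R4.Pl
set_option autoImplicit false

/-! # Hausdorff-Young for vector valued functions of one variable -/

namespace Pool.Agent.W21.BT

open Set Filter MeasureTheory
open scoped Topology ContDiff FourierTransform ENNReal RealInnerProductSpace
open Pool.Agent.W743.BT

variable {M : ℕ}

/-- the vector valued function -/
noncomputable def vec (g : Fin M → ℝ → ℂ) (t : ℝ) : EuclideanSpace ℂ (Fin M) :=
  WithLp.toLp 2 (fun k => g k t)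

lemma vec_apply (g : Fin M → ℝ → ℂ) (t : ℝ) (k : Fin M) : vec g t k = g k t := rfl

lemma enorm_sq (x : EuclideanSpace ℂ (Fin M)) : ‖x‖ₑ ^ 2 = ∑ k, ‖x k‖ₑ ^ 2 := by
  have h1 : ‖x‖₊ ^ 2 = ∑ k, ‖x k‖₊ ^ 2 := by
    apply NNReal.coe_injective
    push_cast
    exact EuclideanSpace.norm_sq_eq x
  have h2 : ((‖x‖₊ ^ 2 : NNReal) : ℝ≥0∞) = ((∑ k, ‖x k‖₊ ^ 2 : NNReal) : ℝ≥0∞) := by rw [h1]
  push_cast at h2
  exact h2

lemma sq_eq (g : Fin M → ℝ → ℂ) (t : ℝ) : sq g t = ‖vec g t‖ₑ ^ 2 := by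
  rw [enorm_sq]; rfl

lemma meas_vec {g : Fin M → ℝ → ℂ} (hg : ∀ k, Measurable (g k)) : Measurable (vec g) := by
  unfold vec
  fun_prop

lemma int_vec {g : Fin M → ℝ → ℂ} (hg : ∀ k, Integrable (g k)) : Integrable (vec g) :=
  Integrable.of_eval_piLp (fun k => hg k)

lemma four_vec {g : Fin M → ℝ → ℂ} (hg : ∀ k, Integrable (g k)) (t : ℝ) :
    𝓕 (vec g) t = vec (fun k => 𝓕 (g k)) t := by
  have h : ∀ k : Fin M, (𝓕 (vec g) t) k = 𝓕 (g k) t := by
    intro k
    rw [Real.fourier_eq, Real.fourier_eq]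
    rw [eval_integral_piLp]
    · rfl
    · intro i
      exact (Real.fourierIntegral_convergent_iff t).2 (hg i)
  ext k
  exact h k

lemma cont_four {g : Fin M → ℝ → ℂ} (hg : ∀ k, Integrable (g k)) :
    Continuous (𝓕 (vec g)) :=
  VectorFourier.fourierIntegral_continuous (L := innerₗ ℝ) Real.continuous_fourierChar
    continuous_inner (int_vec hg)

/-- Plancherel for the vectors -/
lemma planch {g : Fin M → ℝ → ℂ} (hg : ∀ k, Integrable (g k)) (hg2 : ∀ k, MemLp (g k) 2)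
    (hm : ∀ k, Measurable (g k)) :
    ∫⁻ t, ‖𝓕 (vec g) t‖ₑ ^ 2 = ∫⁻ t, ‖vec g t‖ₑ ^ 2 := by
  have h1 : ∀ t, ‖𝓕 (vec g) t‖ₑ ^ 2 = ∑ k, ‖𝓕 (g k) t‖ₑ ^ 2 := by
    intro t
    rw [four_vec hg, enorm_sq]
    rfl
  have h2 : ∀ t, ‖vec g t‖ₑ ^ 2 = ∑ k, ‖g k t‖ₑ ^ 2 := by
    intro t
    rw [enorm_sq]
    rfl
  simp_rw [h1, h2]
  rw [lintegral_finsetSum', lintegral_finsetSum']
  · apply Finset.sum_congr rfl
    intro k _
    exact Pool.Agent.H153R4.plancherel (g k) (hg k) (hg2 k)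
  · intro k _
    exact ((hm k).enorm.pow_const 2).aemeasurable
  · intro k _
    have hc : Continuous (𝓕 (g k)) :=
      VectorFourier.fourierIntegral_continuous (L := innerₗ ℝ) Real.continuous_fourierChar
        continuous_inner (hg k)
    exact (hc.measurable.enorm.pow_const 2).aemeasurable

/-- cut a family by a set -/
noncomputable def cut (s : Set ℝ) (g : Fin M → ℝ → ℂ) (k : Fin M) : ℝ → ℂ := s.indicator (g k)

lemma vec_cut (s : Set ℝ) (g : Fin M → ℝ → ℂ) : vec (cut s g) = s.indicator (vec g) := by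
  funext t
  by_cases h : t ∈ s
  · rw [Set.indicator_of_mem h]
    ext k
    change s.indicator (g k) t = g k t
    rw [Set.indicator_of_mem h]
  · rw [Set.indicator_of_notMem h]
    ext k
    change s.indicator (g k) t = 0
    rw [Set.indicator_of_notMem h]

lemma hyp {g : Fin M → ℝ → ℂ} (hg : ∀ k, Nice (g k)) (t : ℝ≥0∞) :
    ∃ v : ℝ → ℝ≥0∞, Measurable v ∧
      (∀ᵐ y : ℝ, ‖𝓕 (vec g) y‖ₑ ≤ (∫⁻ x in {x | t < ‖vec g x‖ₑ}, ‖vec g x‖ₑ) + v y) ∧
      ∫⁻ y, v y ^ 2 ≤ ∫⁻ x in {x | ‖vec g x‖ₑ ≤ t}, ‖vec g x‖ₑ ^ 2 := by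
  have hm : ∀ k, Measurable (g k) := fun k => (hg k).1
  have hv : Measurable (vec g) := meas_vec hm
  set s : Set ℝ := {x | ‖vec g x‖ₑ ≤ t} with hs
  have hsm : MeasurableSet s := measurableSet_le hv.enorm measurable_const
  have hsc : sᶜ = {x | t < ‖vec g x‖ₑ} := by
    ext x
    simp [hs]
  have i1 : ∀ (u : Set ℝ), MeasurableSet u → ∀ k, Integrable (cut u g k) :=
    fun u hu k => (hg k).2.1.indicator hu
  have i2 : ∀ (u : Set ℝ), MeasurableSet u → ∀ k, MemLp (cut u g k) 2 :=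
    fun u hu k => (hg k).2.2.indicator hu
  have i3 : ∀ (u : Set ℝ), MeasurableSet u → ∀ k, Measurable (cut u g k) :=
    fun u hu k => (hm k).indicator hu
  refine ⟨fun y => ‖𝓕 (vec (cut s g)) y‖ₑ, (cont_four (i1 s hsm)).measurable.enorm, ?_, ?_⟩
  · refine Filter.Eventually.of_forall fun y => ?_
    have hsplit : vec g = fun x => vec (cut sᶜ g) x + vec (cut s g) x := by
      funext x
      rw [vec_cut, vec_cut]
      by_cases h : x ∈ s
      · rw [Set.indicator_of_mem h, Set.indicator_of_notMem (by simpa using h), zero_add]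
      · rw [Set.indicator_of_notMem h, Set.indicator_of_mem (by simpa using h), add_zero]
    have hF : 𝓕 (vec g) y = 𝓕 (vec (cut sᶜ g)) y + 𝓕 (vec (cut s g)) y := by
      conv_lhs => rw [hsplit]
      rw [Real.fourier_eq, Real.fourier_eq, Real.fourier_eq, ← integral_add]
      · simp only [smul_add]
      · exact (Real.fourierIntegral_convergent_iff y).2 (int_vec (i1 sᶜ hsm.compl))
      · exact (Real.fourierIntegral_convergent_iff y).2 (int_vec (i1 s hsm))
    rw [hF]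
    refine (enorm_add_le _ _).trans ?_
    gcongr
    rw [Real.fourier_eq]
    refine (enorm_integral_le_lintegral_enorm _).trans ?_
    rw [← hsc, ← lintegral_indicator hsm.compl]
    apply lintegral_mono
    intro x
    beta_reduce
    rw [vec_cut]
    by_cases h : x ∈ sᶜ
    · rw [Set.indicator_of_mem h, Set.indicator_of_mem h]
      rw [Circle.smul_def, enorm_smul]
      have h1 : ‖((Real.fourierChar (-⟪x, y⟫) : Circle) : ℂ)‖ₑ = 1 := by
        rw [← ofReal_norm, Circle.norm_coe, ENNReal.ofReal_one]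
      rw [h1, one_mul]
    · rw [Set.indicator_of_notMem h, Set.indicator_of_notMem h]
      simp
  · rw [planch (i1 s hsm) (i2 s hsm) (i3 s hsm), ← lintegral_indicator hsm]
    apply lintegral_mono
    intro x
    beta_reduce
    rw [vec_cut]
    by_cases h : x ∈ s
    · rw [Set.indicator_of_mem h, Set.indicator_of_mem h]
    · rw [Set.indicator_of_notMem h, Set.indicator_of_notMem h]
      simp

theorem hyv : S_MARC → S_HYV := by
  intro H p hp1 hp2
  rcases lt_or_eq_of_le hp2 with hlt | heq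
  · obtain ⟨C, hC, hH⟩ := H p hp1 hlt
    refine ⟨C, hC, fun M g hg => ?_⟩
    have hm : ∀ k, Measurable (g k) := fun k => (hg k).1
    have hi : ∀ k, Integrable (g k) := fun k => (hg k).2.1
    have h := hH (volume : Measure ℝ) (volume : Measure ℝ) (fun t => ‖vec g t‖ₑ)
      (fun t => ‖𝓕 (vec g) t‖ₑ) (meas_vec hm).enorm (cont_four hi).measurable.enorm
      (fun t _ _ => hyp hg t)
    have e1 : ∀ t, (sq (fun k => 𝓕 (g k)) t) ^ (p / (p - 1) / 2) =
        ‖𝓕 (vec g) t‖ₑ ^ (p / (p - 1)) := by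
      intro t
      rw [sq_eq, four_vec hi, ← ENNReal.rpow_natCast, ← ENNReal.rpow_mul]
      congr 1
      push_cast
      ring
    have e2 : ∀ t, sq g t ^ (p / 2) = ‖vec g t‖ₑ ^ p := by
      intro t
      rw [sq_eq, ← ENNReal.rpow_natCast, ← ENNReal.rpow_mul]
      congr 1
      push_cast
      ring
    simp_rw [e1, e2]
    exact h
  · subst heq
    refine ⟨1, one_pos, fun M g hg => ?_⟩
    have hm : ∀ k, Measurable (g k) := fun k => (hg k).1
    have hi : ∀ k, Integrable (g k) := fun k => (hg k).2.1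
    have h := planch hi (fun k => (hg k).2.2) hm
    have e1 : ∀ t, (sq (fun k => 𝓕 (g k)) t) ^ ((2 : ℝ) / (2 - 1) / 2) =
        ‖𝓕 (vec g) t‖ₑ ^ 2 := by
      intro t
      rw [sq_eq, four_vec hi]
      norm_num
    have e2 : ∀ t, sq g t ^ ((2 : ℝ) / 2) = ‖vec g t‖ₑ ^ 2 := by
      intro t
      rw [sq_eq]
      norm_num
    simp_rw [e1, e2, h]
    norm_num

end Pool.Agent.W21.BT
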